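import Pool.Agent.Lib.MP_4eed4e_an_X.XDefs

set_option autoImplicit false

/-!
Project X, block M: local limits along an ultrafilter, clusters of vertices (definitions).
-/

namespace Pool.Agent.MP4eed4eX

open MeasureTheory Set Filter Topology Pool.Agent.MP4eed4eP

/-- Standing assumptions of the limit theorem. -/
structure Sys {n : ℕ} (U : Ultrafilter ℕ) (D : ℕ → Set P) (p : ℕ → Fin n → P)
    (E : Finset (Fin n × Fin n)) (l : ℕ → ℝ) : Prop where
  ult : (U : Filter ℕ) ≤ atTop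
  fig : ∀ k, Fig (D k) (p k) E
  lim : ∀ j, Tendsto (fun k => lamL (D k) j) atTop (𝓝 (l j))
  inf : Tendsto l atTop atTop

/-- Limits of the vertices, seen from the points `x k`. -/
def VLim {n : ℕ} (U : Ultrafilter ℕ) (p : ℕ → Fin n → P) (x : ℕ → P) : Set P :=
  {y | ∃ i, Tendsto (fun k => p k i - x k) (U : Filter ℕ) (𝓝 y)}

/-- Limit of the edge `e`, seen from the points `x k`. -/
def ELim {n : ℕ} (U : Ultrafilter ℕ) (p : ℕ → Fin n → P) (x : ℕ → P) (e : Fin n × Fin n) : Set P :=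
  {y | ∀ r > 0, ∀ᶠ k in (U : Filter ℕ), ∃ z ∈ segment ℝ (p k e.1) (p k e.2),
    dist (z - x k) y < r}

/-- Limit of the graphs, seen from the points `x k`. -/
def GLim {n : ℕ} (U : Ultrafilter ℕ) (p : ℕ → Fin n → P) (E : Finset (Fin n × Fin n))
    (x : ℕ → P) : Set P := VLim U p x ∪ ⋃ e ∈ E, ELim U p x e

/-- Limit of the open sets, seen from the points `x k`. -/
def OLim (U : Ultrafilter ℕ) (D : ℕ → Set P) (x : ℕ → P) : Set P :=
  {y | ∃ r > 0, ∀ᶠ k in (U : Filter ℕ), ∀ z, dist z y < r → x k + z ∈ D k}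

/-- The vertices `i` and `j` are in the same cluster. -/
def Near {n : ℕ} (U : Ultrafilter ℕ) (p : ℕ → Fin n → P) (i j : Fin n) : Prop :=
  ∃ C : ℝ, ∀ᶠ k in (U : Filter ℕ), dist (p k i) (p k j) ≤ C

open Classical in
/-- Representatives of the clusters. -/
noncomputable def Rep {n : ℕ} (U : Ultrafilter ℕ) (p : ℕ → Fin n → P) : Finset (Fin n) :=
  Finset.univ.filter fun i => ∀ j, Near U p i j → i ≤ j

/-- The centres of the cluster of the vertex `c`. -/
def ctr {n : ℕ} (p : ℕ → Fin n → P) (c : Fin n) (k : ℕ) : P := p k c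

/-- The union of the limit sets of the clusters, shifted by `s c`. -/
def DLim {n : ℕ} (U : Ultrafilter ℕ) (D : ℕ → Set P) (p : ℕ → Fin n → P) (s : Fin n → P) : Set P :=
  ⋃ c ∈ Rep U p, (fun y => y + s c) '' OLim U D (ctr p c)

end Pool.Agent.MP4eed4eX
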