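import Pool.Agent.Lib.MP_4eed4e_an_XK.KEnd
import Pool.Agent.Lib.MP_4eed4e_an_XK.KHomeo

set_option autoImplicit false

/-!
Project X, block K: charts (interface).
-/

namespace Pool.Agent.MP4eed4eX

open MeasureTheory Set Filter Topology Pool.Agent.MP4eed4eP

theorem exists_hat {n : ℕ} {p : Fin n → P} {E : Finset (Fin n × Fin n)} (h : SLG p E) :
    ∃ b, Hat p E b :=
  K.exists_hat' h

theorem chart {n : ℕ} {p : Fin n → P} {E : Finset (Fin n × Fin n)} {b : Fin n → P → ℝ}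
    (h : SLG p E) (hb : Hat p E b) : ∃ ρ > 0, ∀ d : Fin n → P, ‖d‖ < ρ →
      (∃ φ : P ≃ₜ P, ∀ x, φ x = ph b d x) ∧ SLG (fun i => p i + d i) E ∧
      (∀ D, Fig D p E → Fig (ph b d '' D) (fun i => p i + d i) E) ∧
      ∀ D', Fig D' (fun i => p i + d i) E → ∃ D, Fig D p E ∧ D' = ph b d '' D :=
  K.chart' h hb

/-- The deviation from the identity is Lipschitz with a small constant. -/
theorem lip_ph {n : ℕ} {b : Fin n → P → ℝ} (hb : ∀ i, ∃ K, LipschitzWith K (b i)) :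
    ∃ C : NNReal, ∀ d d' : Fin n → P,
      LipschitzWith (C * ‖d - d'‖₊) (fun x => ph b d x - ph b d' x) ∧
      LipschitzWith (C * ‖d‖₊) (fun x => ph b d x - x) :=
  K.lip_ph' hb

theorem finite_fig {n : ℕ} (p : Fin n → P) (E : Finset (Fin n × Fin n)) :
    {D : Set P | Fig D p E}.Finite :=
  K.finite_fig' p E

/-- Rigidity of the labels. -/
theorem label {D : Set P} (hD : IsOpen D) (ψ : P ≃ₜ P) (hne : (frontier D).Nonempty)
    (h1 : ∀ x ∈ frontier D, ψ x = x)
    (h2 : ∀ x ∉ frontier D, dist (ψ x) x < Metric.infDist x (frontier D)) : ψ '' D = D :=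
  K.label' hD ψ hne h1 h2

theorem isOpen_SLG {n : ℕ} (E : Finset (Fin n × Fin n)) : IsOpen {p : Fin n → P | SLG p E} :=
  K.isOpen_SLG' E

end Pool.Agent.MP4eed4eX
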