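import Pool.Agent.Lib.MP_4eed4e_an_X.XDefs
import Pool.Agent.Lib.MP_4eed4e_an_XL.LMain

set_option autoImplicit false

/-!
Project X, block L: analyticity of the traces (interface).
-/

namespace Pool.Agent.MP4eed4eX

open MeasureTheory Set Filter Topology Pool.Agent.MP4eed4eP

theorem analytic_tr {n : ℕ} {D : Set P} (hO : IsOpen D) (hb : Bornology.IsBounded D)
    (hne : D.Nonempty) {b : Fin n → P → ℝ} (hl : ∀ i, ∃ K, LipschitzWith K (b i))
    (hw : ∀ i, WPA (b i)) {a : ℕ} (ha : 1 ≤ a) :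
    AnalyticAt ℝ (fun d : Fin n → P => fa a (ph b d '' D)) 0 :=
  L.analytic_tr' hO hb hne hl hw ha

theorem lamL_pos {D : Set P} (hO : IsOpen D) (hb : Bornology.IsBounded D) (hne : D.Nonempty)
    (k : ℕ) : 0 < lamL D (k + 1) :=
  L.lamL_pos' hO hb hne k

theorem lamL_mono {D : Set P} (hO : IsOpen D) (hb : Bornology.IsBounded D) (hne : D.Nonempty) :
    Monotone (fun k => lamL D k) :=
  L.lamL_mono' hO hb hne

theorem lamL_tendsto {D : Set P} (hO : IsOpen D) (hb : Bornology.IsBounded D)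
    (hne : D.Nonempty) : Tendsto (fun k => lamL D k) atTop atTop :=
  L.lamL_tendsto' hO hb hne

theorem summable_lamL {D : Set P} (hO : IsOpen D) (hb : Bornology.IsBounded D)
    (hne : D.Nonempty) {a : ℕ} (ha : 1 ≤ a) :
    Summable (fun k => ((lamL D (k + 1))⁻¹) ^ (2 * a)) :=
  L.summable_lamL' hO hb hne ha

end Pool.Agent.MP4eed4eX
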