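import Pool.Agent.Lib.MP_4eed4e_an_XA.ANear
import Pool.Agent.Lib.MP_4eed4e_an_XA.ASpl
import Pool.Agent.Lib.MP_4eed4e_an_XG.GGlue

set_option autoImplicit false

/-!
Project X, block M: the limit theorem (interface).
-/

namespace Pool.Agent.MP4eed4eX

open MeasureTheory Set Filter Topology Pool.Agent.MP4eed4eP

/-- M0: relative closeness of the eigenvalues under maps close to the identity. -/
theorem lamL_near : ∃ C : ℝ, 0 < C ∧ ∀ (κ : NNReal) (φ : P → P) (D : Set P), κ ≤ 1 / 4 →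
    LipschitzWith κ (fun x => φ x - x) → IsOpen D → Bornology.IsBounded D → D.Nonempty →
    ∀ k, |lamL (φ '' D) k - lamL D k| ≤ C * κ * lamL D k :=
  lamL_near'

/-- The eigenvalues of a set with two separated parts do not change if a part is moved. -/
theorem lamL_split {D1 D2 : Set P} (h1 : IsOpen D1) (h2 : IsOpen D2) {s : ℝ}
    (hs1 : ∀ x ∈ closure D1, x.1 < s) (hs2 : ∀ x ∈ closure D2, s < x.1) {t : ℝ} (ht : 0 ≤ t)
    (k : ℕ) : lamL (D1 ∪ (fun x => x + (t, 0)) '' D2) k = lamL (D1 ∪ D2) k :=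
  lamL_split' h1 h2 hs1 hs2 ht k

/-- The main limit theorem. -/
theorem limit {n : ℕ} {E : Finset (Fin n × Fin n)} {D : ℕ → Set P} {p : ℕ → Fin n → P}
    (h : ∀ k, Fig (D k) (p k) E) {l : ℕ → ℝ}
    (hl : ∀ j, Tendsto (fun k => lamL (D k) j) atTop (𝓝 (l j))) (hinf : Tendsto l atTop atTop)
    (U : Ultrafilter ℕ) (hU : (U : Filter ℕ) ≤ atTop) :
    ∃ (M : ℕ) (p' : Fin M → P) (E' : Finset (Fin M × Fin M)) (D' : Set P), M ≤ n ∧
      Fig D' p' E' ∧ (∀ j, lamL D' j = l j) ∧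
      (M = n → ∃ (q : Fin n → P) (E'' : Finset (Fin n × Fin n)), Fig D' q E'' ∧
        ((∀ i j, Tendsto (fun k => p k i - p k j) U (𝓝 (q i - q j))) ∨
          ∃ s : ℝ, (∃ i, (q i).1 < s) ∧ (∃ i, s < (q i).1) ∧ ∀ x ∈ closure D', x.1 ≠ s)) :=
  limit' h hl hinf U hU

end Pool.Agent.MP4eed4eX
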