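import Pool.Agent.Lib.MP_4eed4e_an_XG.GUni
import Pool.Agent.Lib.MP_4eed4e_an_XG.GThin
import Pool.Agent.Lib.MP_4eed4e_an_XG.GMapB

set_option autoImplicit false

/-!
Project X, block MG (geometry along the ultrafilter): interface for block MA; the proofs are in the
folder XG.
-/

namespace Pool.Agent.MP4eed4eX

open MeasureTheory Set Filter Topology Pool.Agent.MP4eed4eP

variable {n : ℕ} {U : Ultrafilter ℕ} {D : ℕ → Set P} {p : ℕ → Fin n → P}
  {E : Finset (Fin n × Fin n)} {l : ℕ → ℝ} {x : ℕ → P}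

theorem isOpen_OLim : IsOpen (OLim U D x) :=
  isOpen_OLim'

theorem finite_VLim : (VLim U p x).Finite :=
  finite_VLim'

theorem isClosed_GLim : IsClosed (GLim U p E x) :=
  isClosed_GLim'

/-- Compact subsets of the limit set are eventually contained in the sets. -/
theorem OLim_compact {K : Set P} (hK : IsCompact K) (h : K ⊆ OLim U D x) :
    ∀ᶠ k in (U : Filter ℕ), ∀ z ∈ K, x k + z ∈ D k :=
  OLim_compact' hK h

/-- Compact sets which do not meet the limit sets are eventually disjoint from the sets. -/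
theorem Sys.out_compact (h : Sys U D p E l) {K : Set P} (hK : IsCompact K)
    (h1 : Disjoint K (OLim U D x)) (h2 : Disjoint K (GLim U p E x)) :
    ∀ᶠ k in (U : Filter ℕ), ∀ z ∈ K, x k + z ∉ D k :=
  h.out_compact' hK h1 h2

theorem Sys.disj (h : Sys U D p E l) : Disjoint (OLim U D x) (GLim U p E x) :=
  h.disj'

theorem Sys.frontier_OLim (h : Sys U D p E l) : frontier (OLim U D x) ⊆ GLim U p E x :=
  h.frontier_OLim'

theorem Sys.null_GLim (h : Sys U D p E l) : volume (GLim U p E x) = 0 :=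
  h.null_GLim'

theorem Sys.bdd_OLim (h : Sys U D p E l) : Bornology.IsBounded (OLim U D x) :=
  h.bdd_OLim'

/-- Far from the vertices the sets are thin. -/
theorem Sys.thin (h : Sys U D p E l) {δ : ℝ} (hδ : 0 < δ) :
    ∃ R : ℝ, ∀ᶠ k in (U : Filter ℕ), ∀ x, (∀ i, R ≤ dist x (p k i)) →
      ¬ Metric.ball x δ ⊆ D k :=
  h.thin' hδ

/-- Near the centres the limit graph is moved into the graph by a map close to the identity. -/
theorem Sys.near_map (h : Sys U D p E l) (x : ℕ → P) (R : ℝ) {r κ : ℝ} (hr : 0 < r) (hκ : 0 < κ) :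
    ∀ᶠ k in (U : Filter ℕ), ∃ v : P → P, LipschitzWith κ.toNNReal v ∧ (∀ y, ‖v y‖ ≤ κ) ∧
      ∀ y ∈ GLim U p E x, ‖y‖ ≤ R → (∀ z ∈ VLim U p x, r ≤ dist y z) →
        x k + (y + v y) ∈ Gr (p k) E :=
  near_map' (fun k => (h.fig k).slg) x R hr hκ

theorem exists_rep (U : Ultrafilter ℕ) (p : ℕ → Fin n → P) (i : Fin n) :
    ∃ c ∈ Rep U p, Near U p c i :=
  exists_rep' U p i

theorem Near.lim {c i : Fin n} (h : Near U p c i) :
    ∃ v ∈ VLim U p (ctr p c), Tendsto (fun k => p k i - p k c) (U : Filter ℕ) (𝓝 v) :=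
  h.lim'

theorem rep_far {c c' : Fin n} (hc : c ∈ Rep U p) (hc' : c' ∈ Rep U p) (hne : c ≠ c') (R : ℝ) :
    ∀ᶠ k in (U : Filter ℕ), R < dist (p k c) (p k c') :=
  rep_far' hc hc' hne R

/-- The union of the limits of the clusters. -/
theorem Sys.union (h : Sys U D p E l) : ∃ (s : Fin n → P) (R : ℝ), 0 < R ∧
    (∀ c ∈ Rep U p, OLim U D (ctr p c) ⊆ Metric.ball 0 R) ∧
    (∀ c ∈ Rep U p, ∀ c' ∈ Rep U p, c ≠ c' → 4 * R ≤ dist (s c) (s c')) ∧
    ∃ (M : ℕ) (p' : Fin M → P) (E' : Finset (Fin M × Fin M)), M ≤ n ∧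
      Fig (DLim U D p s) p' E' ∧
      (M = n → ∃ (q : Fin n → P) (E'' : Finset (Fin n × Fin n)), Fig (DLim U D p s) q E'' ∧
        ((∀ i j, Tendsto (fun k => p k i - p k j) U (𝓝 (q i - q j))) ∨
          ∃ t : ℝ, (∃ i, (q i).1 < t) ∧ (∃ i, t < (q i).1) ∧
            ∀ x ∈ closure (DLim U D p s), x.1 ≠ t)) :=
  h.union'

end Pool.Agent.MP4eed4eX
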