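import Pool.Agent.Lib.MP_4eed4e_an_XO.OJoin
import Pool.Agent.Lib.MP_4eed4e_an_XO.OFr
import Pool.Agent.Lib.MP_4eed4e_an_XO.OUni

set_option autoImplicit false

/-!
Project X, block O: simple polygons (interface).
-/

namespace Pool.Agent.MP4eed4eX

open MeasureTheory Set Filter Topology Pool.Agent.MP4eed4eP

/-- Every simple closed polygon can be deformed through simple polygons to a convex one. -/
theorem joined {m : ℕ} {p : Fin (m + 3) → P} (h : SLG p (cyc (m + 3))) :
    ∃ q : Fin (m + 3) → P, JoinedIn {p | SLG p (cyc (m + 3))} p q ∧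
      (Ccw q ∨ Ccw (fun i => ((q i).1, -(q i).2))) :=
  XO.joined' m p h

/-- Convex polygons are simple, and their inside is `Kp`. -/
theorem fig_Kp {m : ℕ} {p : Fin (m + 3) → P} (h : Ccw p) : Fig (Kp p) p (cyc (m + 3)) :=
  XO.fig_Kp' h

theorem fig_ccw {m : ℕ} {p : Fin (m + 3) → P} (h : Ccw p) {D : Set P}
    (hD : Fig D p (cyc (m + 3))) : D = Kp p :=
  XO.fig_ccw' h hD

/-- Every simple closed polygon has exactly one inside. -/
theorem exists_unique_fig {m : ℕ} {p : Fin (m + 3) → P} (h : SLG p (cyc (m + 3))) :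
    ∃! D : Set P, Fig D p (cyc (m + 3)) :=
  XO.exists_unique_fig h

end Pool.Agent.MP4eed4eX
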