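import Pool.Agent.Lib.MP_4eed4e_an_P.PDefs

set_option autoImplicit false

/-!
MP_4eed4e_an, project X: definitions which occur in the final statement.
-/

namespace Pool.Agent.MP4eed4eX

open Set

variable {V : Type*} [NormedAddCommGroup V] [NormedSpace ℝ V]

/-- The straight-line graph with the vertices `p i` and the edges `[p i, p j]`, `(i, j) ∈ E`. -/
def Gr {n : ℕ} (p : Fin n → V) (E : Finset (Fin n × Fin n)) : Set V :=
  range p ∪ ⋃ e ∈ E, segment ℝ (p e.1) (p e.2)

/-- The straight-line graph is plane (nondegenerate): the vertices are different, no vertex is in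
the interior of an edge, the interiors of different edges are disjoint. -/
structure SLG {n : ℕ} (p : Fin n → V) (E : Finset (Fin n × Fin n)) : Prop where
  inj : Function.Injective p
  lt : ∀ e ∈ E, e.1 < e.2
  vert : ∀ e ∈ E, ∀ k, p k ∉ openSegment ℝ (p e.1) (p e.2)
  disj : ∀ e ∈ E, ∀ f ∈ E, e ≠ f →
    Disjoint (openSegment ℝ (p e.1) (p e.2)) (openSegment ℝ (p f.1) (p f.2))

/-- `D` is a bounded open set whose boundary is the plane straight-line graph `(p, E)`. -/
structure Fig {n : ℕ} (D : Set V) (p : Fin n → V) (E : Finset (Fin n × Fin n)) : Prop where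
  slg : SLG p E
  op : IsOpen D
  bdd : Bornology.IsBounded D
  fr : frontier D = Gr p E

/-- `D` is a bounded open set whose boundary is a plane straight-line graph with at most `n`
vertices. -/
def Poly (n : ℕ) (D : Set V) : Prop :=
  ∃ M ≤ n, ∃ (q : Fin M → V) (E : Finset (Fin M × Fin M)), Fig D q E

/-- The edges of a closed polygon with the vertices `0, 1, .., n - 1` in this order. -/
def cyc (n : ℕ) : Finset (Fin n × Fin n) :=
  Finset.univ.filter fun e => e.1 < e.2 ∧
    ((e.2 : ℕ) = (e.1 : ℕ) + 1 ∨ ((e.1 : ℕ) = 0 ∧ (e.2 : ℕ) + 1 = n))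

end Pool.Agent.MP4eed4eX
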