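import Pool.Agent.Lib.MP_4eed4e_an_P.PBase
import Pool.Agent.Lib.MP_4eed4e_an_X.XPub

set_option autoImplicit false

/-!
MP_4eed4e_an, project X (text `/team-store/MP_4eed4e_PX.md`): internal definitions.
-/

namespace Pool.Agent.MP4eed4eX

open MeasureTheory Set Filter Topology Pool.Agent.MP4eed4eP

/-! ### Charts -/

/-- The chart `φ_d = id + ∑ b_i d_i`. -/
noncomputable def ph {n : ℕ} (b : Fin n → P → ℝ) (d : Fin n → P) (x : P) : P :=
  x + ∑ i, b i x • d i

/-- Weakly piecewise affine: at every point the value of `f` is one of the values of finitely many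
affine functions. -/
def WPA (f : P → ℝ) : Prop :=
  ∃ A : Finset (ℝ × ℝ × ℝ), ∀ x : P, ∃ t ∈ A, f x = t.1 + t.2.1 * x.1 + t.2.2 * x.2

/-- Hat functions of a straight-line graph. -/
structure Hat {n : ℕ} (p : Fin n → P) (E : Finset (Fin n × Fin n)) (b : Fin n → P → ℝ) :
    Prop where
  lip : ∀ i, ∃ K, LipschitzWith K (b i)
  wpa : ∀ i, WPA (b i)
  vert : ∀ i k, b i (p k) = if i = k then 1 else 0
  edge : ∀ i, ∀ e ∈ E, ∀ s ∈ Icc (0 : ℝ) 1,
    b i ((1 - s) • p e.1 + s • p e.2) = (1 - s) * b i (p e.1) + s * b i (p e.2)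

/-! ### Normal forms and trace vectors -/

/-- The configuration with `p_0 = 0`, `p_1 = (s, 0)`, the other vertices free. -/
def nf {m : ℕ} (c : Par m) (i : Fin (m + 3)) : P :=
  if (i : ℕ) = 0 then 0 else if (i : ℕ) = 1 then (c (iS m), 0)
  else if h : 3 ≤ (i : ℕ) then (c (iT ⟨i - 3, by omega⟩), c (iR ⟨i - 3, by omega⟩))
  else (c (iX m), c (iY m))

/-- The trace vector. -/
noncomputable def Tr {ι : Type} (a : ι → ℕ) (D : Set P) : ι → ℝ := fun i => fa (a i) D

/-- The trace vector in the chart at `c0`. -/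
noncomputable def Psi {ι : Type} {m : ℕ} (a : ι → ℕ) (b : Fin (m + 3) → P → ℝ) (c0 : Par m)
    (D : Set P) (c : Par m) : ι → ℝ := Tr a (ph b (fun i => nf c i - nf c0 i) '' D)

/-- Three of the points are collinear. -/
def Col {n : ℕ} (p : Fin n → P) : Prop :=
  ∃ i j k, i ≠ j ∧ j ≠ k ∧ i ≠ k ∧ det2 (p j - p i) (p k - p i) = 0

end Pool.Agent.MP4eed4eX
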